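import Pool.Agent.Lib.MP_81cdd9_nt.HZ.F8

/-! Definitions for the growth of almost all trajectories of Conway's permutation beyond the horizon.
`S` is always a finite set of natural numbers: the set of odd times of a trajectory; `U` the set of times with value `3` modulo `4`. -/

set_option autoImplicit false

namespace Pool.Agent.MP9e8697.CW

open Finset

/-- Conway's map on the integers -/
def T (x : ℤ) : ℤ := if x % 2 = 0 then 3 * x / 2 else if x % 4 = 1 then (3 * x + 1) / 4 else (3 * x - 1) / 4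

/-- the number of elements of `S` below `k` -/
def cnt (S : Finset ℕ) (k : ℕ) : ℕ := (S.filter (fun i => i < k)).card

/-- the odd times before `k` -/
def od (k : ℕ) (n : ℤ) : Finset ℕ := (range k).filter (fun i => (T^[i] n) % 2 = 1)

/-- the times before `k` with value `3` modulo `4` -/
def up (k : ℕ) (n : ℤ) : Finset ℕ := (range k).filter (fun i => (T^[i] n) % 4 = 3)

/-- the number of binary digits used by the first `i` steps -/
def ee (S : Finset ℕ) (i : ℕ) : ℕ := i + cnt S i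

/-- `γ_i = 2^(e_i + 1) z^(i+1)` for `i ∈ S`; here `3 z = 1` modulo a power of two -/
def gam (z : ℤ) (S : Finset ℕ) (i : ℕ) : ℤ := if i ∈ S then 2 ^ (ee S i + 1) * z ^ (i + 1) else 0

/-- `-∑_{i ∈ S} 2^(e_i) z^(i+1)` -/
def x0 (z : ℤ) (S : Finset ℕ) : ℤ := -∑ i ∈ S, 2 ^ ee S i * z ^ (i + 1)

/-- `N(S, U)` -/
def NN (z : ℤ) (S U : Finset ℕ) : ℤ := x0 z S + ∑ i ∈ U, gam z S i

/-- `j` is white for `η`: the distance of `η γ_j / 2^K` to the integers is at least `1/T0` -/
def white (K : ℕ) (γ : ℕ → ℤ) (T0 : ℝ) (η : ℤ) (j : ℕ) : Prop :=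
  1 / T0 ≤ |((η * γ j : ℤ) : ℝ) / 2 ^ K - round (((η * γ j : ℤ) : ℝ) / 2 ^ K)|

open Classical in
/-- number of white places in the block `[s, s+B)` -/
noncomputable def wcnt (K : ℕ) (γ : ℕ → ℤ) (T0 : ℝ) (η : ℤ) (s B : ℕ) : ℕ :=
  ((range B).filter (fun x => white K γ T0 η (s + x))).card

/-- the block at `s` (length `B`) is good: no short vector -/
def goodP (K J j1 B : ℕ) (S : Finset ℕ) (s : ℕ) : Prop :=
  ∀ d r : ℤ, 1 ≤ d → d < 2 ^ (J - j1) → |r| < 2 ^ (K - ee S s - J) →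
    ¬ ((2 : ℤ) ^ (K - ee S s) ∣ 2 * d - 3 ^ (s + B) * r)

/-- `x` is void: `ρ` consecutive even times end at `x` -/
def voidAt (S : Finset ℕ) (ρ x : ℕ) : Prop := ρ ≤ x + 1 ∧ ∀ i < ρ, x - i ∉ S

/-- (C1): every cell of `20 m` times contains at most `11 m` odd times -/
def C1 (S : Finset ℕ) (m k : ℕ) : Prop :=
  ∀ c, (c + 1) * (20 * m) ≤ k → cnt S ((c + 1) * (20 * m)) ≤ cnt S (c * (20 * m)) + 11 * m

open Classical in
/-- (C2): few void `x` in every cell of `l` times and every residue class modulo `ρ` -/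
def C2 (S : Finset ℕ) (ρ l Kc k : ℕ) : Prop :=
  ∀ c, (c + 1) * l ≤ k → ∀ r < ρ,
    ((Ico (c * l) ((c + 1) * l)).filter (fun x => x % ρ = r ∧ voidAt S ρ x)).card < Kc

/-- the range of `η` -/
noncomputable def etas (J : ℕ) : Finset ℤ := Ioo (-(2 : ℤ) ^ (J - 3)) ((2 : ℤ) ^ (J - 3))

end Pool.Agent.MP9e8697.CW
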