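import Mathlib

/-! The counting lemma for one block. `o x = 1` if the time `x` of the block is odd; `Ys o x` the sum of the first `x` values. -/

set_option autoImplicit false

namespace Pool.Agent.MP9e8697.CW

open Finset

/-- partial sums -/
def Ys (o : ℕ → ℕ) (x : ℕ) : ℕ := ∑ i ∈ range x, o i

/-- `k` is black at `x` -/
def black (o : ℕ → ℕ) (R' : ℕ) (k : ℤ) (x : ℕ) : Prop :=
  ∃ v : ℤ, |2 ^ (x + Ys o x) * k - v * 3 ^ (x + 1)| * (4 * 3 ^ R') < 2 * 3 ^ (x + 1)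

open Classical in
/-- number of white odd times before `X` -/
noncomputable def wc (o : ℕ → ℕ) (R' X0 : ℕ) (X : ℕ) (k : ℤ) : ℕ :=
  ((range X).filter (fun x => o x = 1 ∧ X0 ≤ x ∧ ¬ black o R' k x)).card

open Classical in
/-- number of `x < X` at which `ρ` consecutive even times end -/
noncomputable def vc (o : ℕ → ℕ) (ρ X : ℕ) : ℕ :=
  ((range X).filter (fun x => ρ ≤ x + 1 ∧ ∀ i < ρ, o (x - i) ≠ 1)).card

theorem black_add (o : ℕ → ℕ) (R' : ℕ) (k t : ℤ) (x y : ℕ) (hy : x + 1 ≤ y) :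
    black o R' (k + 3 ^ y * t) x ↔ black o R' k x := by
  obtain ⟨c, hc⟩ := Nat.exists_eq_add_of_le hy
  subst hc
  constructor
  · rintro ⟨v, hv⟩
    refine ⟨v - 2 ^ (x + Ys o x) * 3 ^ c * t, ?_⟩
    have h1 : 2 ^ (x + Ys o x) * k - (v - 2 ^ (x + Ys o x) * 3 ^ c * t) * 3 ^ (x + 1) =
        2 ^ (x + Ys o x) * (k + 3 ^ (x + 1 + c) * t) - v * 3 ^ (x + 1) := by
      rw [pow_add 3 (x + 1) c]
      ring
    rw [h1]
    exact hv
  · rintro ⟨v, hv⟩
    refine ⟨v + 2 ^ (x + Ys o x) * 3 ^ c * t, ?_⟩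
    have h1 : 2 ^ (x + Ys o x) * (k + 3 ^ (x + 1 + c) * t) - (v + 2 ^ (x + Ys o x) * 3 ^ c * t) * 3 ^ (x + 1) =
        2 ^ (x + Ys o x) * k - v * 3 ^ (x + 1) := by
      rw [pow_add 3 (x + 1) c]
      ring
    rw [h1]
    exact hv

theorem wc_add (o : ℕ → ℕ) (R' X0 X : ℕ) (k t : ℤ) (y : ℕ) (hy : ∀ x < X, o x = 1 → x + 1 ≤ y) :
    wc o R' X0 X (k + 3 ^ y * t) = wc o R' X0 X k := by
  classical
  unfold wc
  apply congrArg Finset.card
  ext x
  simp only [mem_filter, mem_range]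
  constructor
  · rintro ⟨hx, h1, h2, h3⟩
    exact ⟨hx, h1, h2, fun h => h3 ((black_add o R' k t x y (hy x hx h1)).2 h)⟩
  · rintro ⟨hx, h1, h2, h3⟩
    exact ⟨hx, h1, h2, fun h => h3 ((black_add o R' k t x y (hy x hx h1)).1 h)⟩

/-- At most one lift is black. -/
theorem black_unique (o : ℕ → ℕ) (R' : ℕ) (k : ℤ) (x a e : ℕ) (hy : x + 1 = a + e) (he : e ≤ R')
    (d d' : ℕ) (hd : d < 3 ^ e) (hd' : d' < 3 ^ e)
    (h : black o R' (k + 3 ^ a * d) x) (h' : black o R' (k + 3 ^ a * d') x) : d = d' := by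
  obtain ⟨v, hv⟩ := h
  obtain ⟨v', hv'⟩ := h'
  rw [hy, pow_add 3] at hv hv'
  generalize hP : (2 : ℤ) ^ (x + Ys o x) = P at hv hv'
  obtain ⟨n, hn⟩ : ∃ n : ℤ, n = P * ((d : ℤ) - d') - (v - v') * 3 ^ e := ⟨_, rfl⟩
  have h5a : (0 : ℤ) < 3 ^ a := by positivity
  have h5R : (0 : ℤ) < 3 ^ R' := by positivity
  have h1 : (3 : ℤ) ^ a * n = (P * (k + 3 ^ a * d) - v * (3 ^ a * 3 ^ e)) -
      (P * (k + 3 ^ a * d') - v' * (3 ^ a * 3 ^ e)) := by
    rw [hn]
    ring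
  have h2 : (3 : ℤ) ^ a * |n| ≤ |P * (k + 3 ^ a * d) - v * (3 ^ a * 3 ^ e)| +
      |P * (k + 3 ^ a * d') - v' * (3 ^ a * 3 ^ e)| := by
    have h3 := abs_sub (P * (k + 3 ^ a * (d : ℤ)) - v * (3 ^ a * 3 ^ e))
      (P * (k + 3 ^ a * (d' : ℤ)) - v' * (3 ^ a * 3 ^ e))
    rw [← h1, abs_mul, abs_of_pos h5a] at h3
    exact h3
  have h3 : (3 : ℤ) ^ a * |n| * (4 * 3 ^ R') < 4 * (3 ^ a * 3 ^ e) := by
    have h4 := mul_le_mul_of_nonneg_right h2 (show (0 : ℤ) ≤ 4 * 3 ^ R' by positivity)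
    rw [add_mul] at h4
    linarith
  have h4 : |n| * 3 ^ R' < 3 ^ e := by
    by_contra hcon
    rw [not_lt] at hcon
    have h5 := mul_le_mul_of_nonneg_left hcon h5a.le
    nlinarith
  have h5 : (3 : ℤ) ^ e ≤ 3 ^ R' := pow_le_pow_right₀ (by norm_num) he
  have h6 : |n| < 1 := by
    by_contra hcon
    rw [not_lt] at hcon
    nlinarith
  have h7 : n = 0 := Int.abs_lt_one_iff.1 h6
  have h8 : (3 : ℤ) ^ e ∣ P * ((d : ℤ) - d') := ⟨v - v', by rw [h7] at hn; linarith⟩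
  have h9 : IsCoprime ((3 : ℤ) ^ e) P := by
    rw [← hP]
    exact IsCoprime.pow ⟨1, -1, by norm_num⟩
  have h10 := h9.dvd_of_dvd_mul_left h8
  have h11 : |(d : ℤ) - d'| < 3 ^ e := by
    have h12 : (d : ℤ) < 3 ^ e := by exact_mod_cast hd
    have h13 : (d' : ℤ) < 3 ^ e := by exact_mod_cast hd'
    rw [abs_lt]
    constructor <;> linarith [Int.natCast_nonneg d, Int.natCast_nonneg d']
  have h12 := Int.eq_zero_of_abs_lt_dvd h10 h11
  omega

theorem sum_range_mul_split (m n : ℕ) (f : ℕ → ℝ) :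
    ∑ k ∈ range (m * n), f k = ∑ d ∈ range n, ∑ k ∈ range m, f (k + m * d) := by
  induction n with
  | zero => simp
  | succ n ih =>
    rw [Nat.mul_succ, Finset.sum_range_add, ih, Finset.sum_range_succ]
    congr 1
    refine Finset.sum_congr rfl fun k _ => ?_
    rw [add_comm]

open Classical in
private theorem F6b_succ (o : ℕ → ℕ) (R' X0 x : ℕ) (K : ℤ) :
    wc o R' X0 (x + 1) K = wc o R' X0 x K + if (o x = 1 ∧ X0 ≤ x ∧ ¬ black o R' K x) then 1 else 0 := by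
  unfold wc
  rw [Finset.range_add_one, Finset.filter_insert]
  split_ifs with h
  · rw [Finset.card_insert_of_notMem]
    intro h'
    exact absurd (Finset.mem_range.1 (Finset.mem_filter.1 h').1) (lt_irrefl _)
  · rfl

private theorem F6b_le (o : ℕ → ℕ) (R' X0 x : ℕ) (K : ℤ) :
    wc o R' X0 x K ≤ wc o R' X0 (x + 1) K := by
  rw [F6b_succ]
  exact Nat.le_add_right _ _

/-- The step at an odd time, general factor. -/
theorem step_trivial (o : ℕ → ℕ) (R' X0 x a e : ℕ) (lam : ℝ) (h0 : 0 ≤ lam) (h1 : lam ≤ 1)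
    (ha : ∀ x' < x, o x' = 1 → x' + 1 ≤ a) :
    ∑ k ∈ range (3 ^ (a + e)), lam ^ wc o R' X0 (x + 1) (k : ℤ) ≤
      3 ^ e * ∑ k ∈ range (3 ^ a), lam ^ wc o R' X0 x (k : ℤ) := by
  rw [pow_add, sum_range_mul_split]
  have h2 : ∀ d ∈ range (3 ^ e), ∑ k ∈ range (3 ^ a), lam ^ wc o R' X0 (x + 1) ((k + 3 ^ a * d : ℕ) : ℤ) ≤
      ∑ k ∈ range (3 ^ a), lam ^ wc o R' X0 x (k : ℤ) := by
    intro d _
    refine Finset.sum_le_sum fun k _ => ?_
    have h3 : ((k + 3 ^ a * d : ℕ) : ℤ) = (k : ℤ) + 3 ^ a * (d : ℤ) := by push_cast; ring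
    have h4 : wc o R' X0 x (k : ℤ) ≤ wc o R' X0 (x + 1) ((k + 3 ^ a * d : ℕ) : ℤ) := by
      rw [h3, ← wc_add o R' X0 x (k : ℤ) (d : ℤ) a ha]
      exact F6b_le _ _ _ _ _
    exact pow_le_pow_of_le_one h0 h1 h4
  have h3 := Finset.sum_le_sum h2
  rw [Finset.sum_const, card_range, nsmul_eq_mul] at h3
  push_cast at h3
  exact_mod_cast h3

/-- The step at an odd time with a short gap. -/
theorem step_black (o : ℕ → ℕ) (R' X0 x a e : ℕ) (lam : ℝ) (h0 : 0 ≤ lam) (_h1 : lam ≤ 1)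
    (hx : X0 ≤ x) (ho : o x = 1) (hy : x + 1 = a + e) (he : e ≤ R')
    (ha : ∀ x' < x, o x' = 1 → x' + 1 ≤ a) :
    ∑ k ∈ range (3 ^ (a + e)), lam ^ wc o R' X0 (x + 1) (k : ℤ) ≤
      (1 + lam * 3 ^ e) * ∑ k ∈ range (3 ^ a), lam ^ wc o R' X0 x (k : ℤ) := by
  classical
  rw [pow_add, sum_range_mul_split, Finset.sum_comm]
  have h2 : ∀ k ∈ range (3 ^ a), ∑ d ∈ range (3 ^ e), lam ^ wc o R' X0 (x + 1) ((k + 3 ^ a * d : ℕ) : ℤ) ≤
      (1 + lam * 3 ^ e) * lam ^ wc o R' X0 x (k : ℤ) := by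
    intro k _
    have h3 : ∀ d ∈ range (3 ^ e), lam ^ wc o R' X0 (x + 1) ((k + 3 ^ a * d : ℕ) : ℤ) ≤
        lam ^ wc o R' X0 x (k : ℤ) *
          (lam + if black o R' ((k : ℤ) + 3 ^ a * (d : ℤ)) x then 1 else 0) := by
      intro d _
      have h4 : ((k + 3 ^ a * d : ℕ) : ℤ) = (k : ℤ) + 3 ^ a * (d : ℤ) := by push_cast; ring
      rw [h4, F6b_succ, wc_add o R' X0 x (k : ℤ) (d : ℤ) a ha, pow_add]
      refine mul_le_mul_of_nonneg_left ?_ (pow_nonneg h0 _)
      by_cases hb : black o R' ((k : ℤ) + 3 ^ a * (d : ℤ)) x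
      · rw [if_pos hb, if_neg (fun h => h.2.2 hb), pow_zero]
        linarith
      · rw [if_neg hb, if_pos ⟨ho, hx, hb⟩, pow_one, add_zero]
    refine (Finset.sum_le_sum h3).trans ?_
    rw [← Finset.mul_sum, mul_comm]
    refine mul_le_mul_of_nonneg_right ?_ (pow_nonneg h0 _)
    rw [Finset.sum_add_distrib, Finset.sum_const, card_range, nsmul_eq_mul, Finset.sum_boole]
    have h5 : ((range (3 ^ e)).filter
        (fun d : ℕ => black o R' ((k : ℤ) + 3 ^ a * (d : ℤ)) x)).card ≤ 1 := by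
      rw [Finset.card_le_one]
      intro d hd d' hd'
      rw [Finset.mem_filter, mem_range] at hd hd'
      exact black_unique o R' (k : ℤ) x a e hy he d d' hd.1 hd'.1 hd.2 hd'.2
    have h6 : (((range (3 ^ e)).filter
        (fun d : ℕ => black o R' ((k : ℤ) + 3 ^ a * (d : ℤ)) x)).card : ℝ) ≤ 1 := by
      exact_mod_cast h5
    have h7 : ((3 ^ e : ℕ) : ℝ) * lam = lam * 3 ^ e := by push_cast; ring
    rw [h7]
    linarith
  refine (Finset.sum_le_sum h2).trans ?_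
  rw [← Finset.mul_sum]

private theorem F6c_vc_mono (o : ℕ → ℕ) (ρ x : ℕ) : vc o ρ x ≤ vc o ρ (x + 1) := by
  classical
  unfold vc
  exact card_le_card (filter_subset_filter _ (range_mono (Nat.le_succ x)))

private theorem F6c_vc_succ (o : ℕ → ℕ) (ρ x : ℕ) (h : ρ ≤ x + 1 ∧ ∀ i < ρ, o (x - i) ≠ 1) :
    vc o ρ (x + 1) = vc o ρ x + 1 := by
  classical
  unfold vc
  rw [range_add_one, filter_insert, if_pos h, card_insert_of_notMem]
  intro h1
  exact absurd (mem_range.1 (mem_filter.1 h1).1) (lt_irrefl x)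

private theorem F6c_wc_succ (o : ℕ → ℕ) (R' X0 x : ℕ) (k : ℤ) (h : o x ≠ 1) :
    wc o R' X0 (x + 1) k = wc o R' X0 x k := by
  classical
  unfold wc
  rw [range_add_one, filter_insert, if_neg]
  intro h1
  exact h h1.1

/-- The invariant. -/
private theorem F6c_inv (o : ℕ → ℕ) (ρ X0 : ℕ) (hρ : 1 ≤ ρ) (lam : ℝ)
    (h0 : 0 ≤ lam) (h1 : lam ≤ 1) (x : ℕ) :
    ∃ q a : ℕ, a + q = x ∧ (∀ x' < x, x ≤ x' + q → o x' ≠ 1) ∧
      (∀ x' < x, o x' = 1 → x' + 1 ≤ a) ∧ q + 1 - ρ ≤ vc o ρ x ∧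
      ∑ k ∈ range (3 ^ a), lam ^ wc o (2 * ρ) X0 x (k : ℤ) ≤
        (1 + lam * 3 ^ (2 * ρ)) ^ x *
          3 ^ (min a X0 + 2 * (vc o ρ x - (q + 1 - ρ))) := by
  have hbase : (1 : ℝ) ≤ 1 + lam * 3 ^ (2 * ρ) := by
    have : 0 ≤ lam * (3 : ℝ) ^ (2 * ρ) := by positivity
    linarith
  have h5 : ∀ {m n : ℕ}, m ≤ n → (3 : ℝ) ^ m ≤ 3 ^ n := fun h =>
    pow_le_pow_right₀ (by norm_num) h
  induction x with
  | zero =>
    refine ⟨0, 0, rfl, ?_, ?_, ?_, ?_⟩
    · intro x' hx'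
      exact absurd hx' (Nat.not_lt_zero _)
    · intro x' hx'
      exact absurd hx' (Nat.not_lt_zero _)
    · omega
    · have e1 : ∑ k ∈ range (3 ^ 0), lam ^ wc o (2 * ρ) X0 0 (k : ℤ) = 1 := by
        simp [wc]
      rw [e1, pow_zero, one_mul]
      exact one_le_pow₀ (by norm_num)
  | succ x ih =>
    obtain ⟨q, a, i1, i2, i5, i6, i7⟩ := ih
    have hb0 : (0 : ℝ) ≤ (1 + lam * 3 ^ (2 * ρ)) ^ x := by positivity
    have hbs : (1 + lam * (3 : ℝ) ^ (2 * ρ)) ^ x ≤ (1 + lam * 3 ^ (2 * ρ)) ^ (x + 1) :=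
      pow_le_pow_right₀ hbase (Nat.le_succ x)
    by_cases hx : o x = 1
    · -- an odd time
      obtain ⟨e, he⟩ : ∃ e, x + 1 = a + e := ⟨q + 1, by omega⟩
      have he2 : e = q + 1 := by omega
      have hvc := F6c_vc_mono o ρ x
      refine ⟨0, a + e, by omega, ?_, ?_, ?_, ?_⟩
      · intro x' hx' h
        omega
      · intro x' hx' hox'
        omega
      · omega
      · by_cases hX : X0 ≤ x
        · by_cases he3 : e ≤ 2 * ρ
          · have h2 := step_black o (2 * ρ) X0 x a e lam h0 h1 hX hx he he3 i5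
            refine h2.trans ?_
            calc (1 + lam * 3 ^ e) * ∑ k ∈ range (3 ^ a), lam ^ wc o (2 * ρ) X0 x (k : ℤ) ≤
                (1 + lam * 3 ^ (2 * ρ)) * ((1 + lam * 3 ^ (2 * ρ)) ^ x *
                  3 ^ (min a X0 + 2 * (vc o ρ x - (q + 1 - ρ)))) := by
                  refine mul_le_mul ?_ i7 (sum_nonneg fun _ _ => pow_nonneg h0 _) (by positivity)
                  have := mul_le_mul_of_nonneg_left (h5 he3) h0
                  linarith
              _ = (1 + lam * 3 ^ (2 * ρ)) ^ (x + 1) *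
                  3 ^ (min a X0 + 2 * (vc o ρ x - (q + 1 - ρ))) := by
                  rw [pow_succ]; ring
              _ ≤ _ := by
                  refine mul_le_mul_of_nonneg_left (h5 ?_) (by positivity)
                  have h3 : min a X0 ≤ min (a + e) X0 := min_le_min_right _ (by omega)
                  omega
          · have h2 := step_trivial o (2 * ρ) X0 x a e lam h0 h1 i5
            refine h2.trans ?_
            calc 3 ^ e * ∑ k ∈ range (3 ^ a), lam ^ wc o (2 * ρ) X0 x (k : ℤ) ≤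
                3 ^ e * ((1 + lam * 3 ^ (2 * ρ)) ^ x *
                  3 ^ (min a X0 + 2 * (vc o ρ x - (q + 1 - ρ)))) :=
                  mul_le_mul_of_nonneg_left i7 (by positivity)
              _ = (1 + lam * 3 ^ (2 * ρ)) ^ x *
                  3 ^ (e + (min a X0 + 2 * (vc o ρ x - (q + 1 - ρ)))) := by
                  rw [pow_add 3 e]; ring
              _ ≤ _ := by
                  refine mul_le_mul hbs (h5 ?_) (by positivity) (by positivity)
                  have h3 : min a X0 ≤ min (a + e) X0 := min_le_min_right _ (by omega)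
                  omega
        · have h2 := step_trivial o (2 * ρ) X0 x a e lam h0 h1 i5
          refine h2.trans ?_
          calc 3 ^ e * ∑ k ∈ range (3 ^ a), lam ^ wc o (2 * ρ) X0 x (k : ℤ) ≤
              3 ^ e * ((1 + lam * 3 ^ (2 * ρ)) ^ x *
                3 ^ (min a X0 + 2 * (vc o ρ x - (q + 1 - ρ)))) :=
                mul_le_mul_of_nonneg_left i7 (by positivity)
            _ = (1 + lam * 3 ^ (2 * ρ)) ^ x *
                3 ^ (e + (min a X0 + 2 * (vc o ρ x - (q + 1 - ρ)))) := by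
                rw [pow_add 3 e]; ring
            _ ≤ _ := by
                refine mul_le_mul hbs (h5 ?_) (by positivity) (by positivity)
                have h3 : min a X0 ≤ a := min_le_left _ _
                have h4 : min (a + e) X0 = a + e := min_eq_left (by omega)
                omega
    · -- an even time
      have hsum : ∑ k ∈ range (3 ^ a), lam ^ wc o (2 * ρ) X0 (x + 1) (k : ℤ) =
          ∑ k ∈ range (3 ^ a), lam ^ wc o (2 * ρ) X0 x (k : ℤ) :=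
        sum_congr rfl fun k _ => by rw [F6c_wc_succ _ _ _ _ _ hx]
      have hno : ∀ x' < x + 1, x + 1 ≤ x' + (q + 1) → o x' ≠ 1 := by
        intro x' hx' h
        rcases Nat.lt_or_ge x' x with h2 | h2
        · exact i2 x' h2 (by omega)
        · have : x' = x := by omega
          rw [this]
          exact hx
      refine ⟨q + 1, a, by omega, hno, ?_, ?_, ?_⟩
      · intro x' hx' hox'
        rcases Nat.lt_or_ge x' x with h2 | h2
        · exact i5 x' h2 hox'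
        · have : x' = x := by omega
          rw [this] at hox'
          exact absurd hox' hx
      · by_cases hq : ρ ≤ q + 1
        · have h2 := F6c_vc_succ o ρ x ⟨by omega, fun i hi => hno _ (by omega) (by omega)⟩
          omega
        · omega
      · rw [hsum]
        refine i7.trans (mul_le_mul hbs (h5 ?_) (by positivity) (by positivity))
        by_cases hq : ρ ≤ q + 1
        · have h2 := F6c_vc_succ o ρ x ⟨by omega, fun i hi => hno _ (by omega) (by omega)⟩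
          omega
        · have hvc := F6c_vc_mono o ρ x
          omega

/-- The counting lemma. -/
theorem block_count (o : ℕ → ℕ) (ρ X0 B : ℕ) (hρ : 1 ≤ ρ) (lam : ℝ) (h0 : 0 ≤ lam) (h1 : lam ≤ 1) :
    ∑ k ∈ range (3 ^ B), lam ^ wc o (2 * ρ) X0 B (k : ℤ) ≤
      (1 + lam * 3 ^ (2 * ρ)) ^ B * 3 ^ (X0 + 2 * vc o ρ B + 2 * ρ) := by
  obtain ⟨q, a, i1, i2, i5, i6, i7⟩ := F6c_inv o ρ X0 hρ lam h0 h1 B
  have h5 : ∀ {m n : ℕ}, m ≤ n → (3 : ℝ) ^ m ≤ 3 ^ n := fun h =>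
    pow_le_pow_right₀ (by norm_num) h
  have hs : ∑ k ∈ range (3 ^ B), lam ^ wc o (2 * ρ) X0 B (k : ℤ) =
      3 ^ q * ∑ k ∈ range (3 ^ a), lam ^ wc o (2 * ρ) X0 B (k : ℤ) := by
    have hB : (3 : ℕ) ^ B = 3 ^ a * 3 ^ q := by rw [← pow_add, i1]
    rw [hB, sum_range_mul_split (3 ^ a) (3 ^ q)
      (fun k => lam ^ wc o (2 * ρ) X0 B (k : ℤ))]
    have h2 : ∀ d ∈ range (3 ^ q), ∑ k ∈ range (3 ^ a),
        lam ^ wc o (2 * ρ) X0 B ((k + 3 ^ a * d : ℕ) : ℤ) =
        ∑ k ∈ range (3 ^ a), lam ^ wc o (2 * ρ) X0 B (k : ℤ) := by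
      intro d _
      refine sum_congr rfl fun k _ => ?_
      have h3 : ((k + 3 ^ a * d : ℕ) : ℤ) = (k : ℤ) + 3 ^ a * (d : ℤ) := by push_cast; ring
      rw [h3, wc_add o (2 * ρ) X0 B (k : ℤ) (d : ℤ) a i5]
    rw [sum_congr rfl h2, sum_const, card_range, nsmul_eq_mul]
    push_cast
    ring
  rw [hs]
  calc 3 ^ q * ∑ k ∈ range (3 ^ a), lam ^ wc o (2 * ρ) X0 B (k : ℤ) ≤
      3 ^ q * ((1 + lam * 3 ^ (2 * ρ)) ^ B *
        3 ^ (min a X0 + 2 * (vc o ρ B - (q + 1 - ρ)))) :=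
        mul_le_mul_of_nonneg_left i7 (by positivity)
    _ = (1 + lam * 3 ^ (2 * ρ)) ^ B *
        3 ^ (q + (min a X0 + 2 * (vc o ρ B - (q + 1 - ρ)))) := by
        rw [pow_add 3 q]; ring
    _ ≤ _ := by
        refine mul_le_mul_of_nonneg_left (h5 ?_) (by positivity)
        have h3 : min a X0 ≤ X0 := min_le_right _ _
        omega

end Pool.Agent.MP9e8697.CW
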