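import Pool.Agent.Lib.MP_81cdd9_nt.HZ.G1b
import Pool.Agent.Lib.MP_9e8697_nt.Mg.G004

/-! The exponent, and two exceptional sets. -/

set_option autoImplicit false

namespace Pool.Agent.MP9e8697.CW

open Finset

theorem exponent (e x y : ℝ) (he : 0 < e) (he1 : e ≤ 1) (L k w : ℕ) (hL : 100 ≤ e * L) (hw : e * L ≤ w)
    (hkL : k ≤ L) (hk : (L : ℝ) ≤ (3 / 2 + e / 4) * k) (hx : 2 ^ L ≤ x) (hx2 : x ≤ 2 ^ (L + 2))
    (hy : 3 ^ (k + 20 * w) * x ≤ 2 ^ (L + 2 + 31 * w) * y) :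
    x ^ (2 * Real.log 3 / (3 * Real.log 2) + e / 4) ≤ y := by
  have hu : 0 < Real.log 2 := Real.log_pos (by norm_num)
  set u := Real.log 2 with hudef
  set v := Real.log 3 with hvdef
  have hx0 : 0 < x := lt_of_lt_of_le (by positivity) hx
  have hy0 : 0 < y := by
    have h1 : 0 < 3 ^ (k + 20 * w) * x := by positivity
    have h2 : 0 < 2 ^ (L + 2 + 31 * w) * y := lt_of_lt_of_le h1 hy
    exact (pos_iff_pos_of_mul_pos h2).1 (by positivity)
  have hv1 : 5 * v ≤ 8 * u := by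
    have h1 : Real.log ((3 : ℝ) ^ 5) ≤ Real.log ((2 : ℝ) ^ 8) :=
      Real.log_le_log (by norm_num) (by norm_num)
    rw [Real.log_pow, Real.log_pow] at h1
    push_cast at h1
    exact h1
  have hv2 : 19 * u ≤ 12 * v := by
    have h1 : Real.log ((2 : ℝ) ^ 19) ≤ Real.log ((3 : ℝ) ^ 12) :=
      Real.log_le_log (by norm_num) (by norm_num)
    rw [Real.log_pow, Real.log_pow] at h1
    push_cast at h1
    exact h1
  set α := v / u with hα
  have hvα : v = α * u := by
    rw [hα]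
    field_simp
  have hα1 : α ≤ 8 / 5 := by
    rw [hα, div_le_iff₀ hu]
    linarith
  have hα2 : 19 / 12 ≤ α := by
    rw [hα, le_div_iff₀ hu]
    linarith
  have hexp : 2 * v / (3 * u) = 2 / 3 * α := by
    rw [hα]
    field_simp
  set ν := Real.log x / u with hν
  have hxν : Real.log x = ν * u := by
    rw [hν]
    field_simp
  have hν1 : ν ≤ L + 2 := by
    rw [hν, div_le_iff₀ hu]
    have h1 := Real.log_le_log hx0 hx2
    rw [Real.log_pow] at h1
    push_cast at h1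
    exact h1
  have hν0 : (L : ℝ) ≤ ν := by
    rw [hν, le_div_iff₀ hu]
    have h1 := Real.log_le_log (by positivity) hx
    rw [Real.log_pow] at h1
    exact h1
  have hlog : (k + 20 * w : ℝ) * v + Real.log x ≤ (L + 2 + 31 * w : ℝ) * u + Real.log y := by
    have h1 := Real.log_le_log (by positivity) hy
    rw [Real.log_mul (by positivity) hx0.ne', Real.log_mul (by positivity) hy0.ne', Real.log_pow,
      Real.log_pow] at h1
    push_cast at h1
    exact h1
  have hL0 : (0 : ℝ) ≤ L := Nat.cast_nonneg L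
  have hk0 : (0 : ℝ) ≤ k := Nat.cast_nonneg k
  have hw0 : (0 : ℝ) ≤ w := Nat.cast_nonneg w
  have hkL' : (k : ℝ) ≤ L := by exact_mod_cast hkL
  -- the pieces
  have h1 : 2 / 3 * α * L ≤ α * k + 4 / 15 * (e * L) := by
    have a1 : 2 / 3 * α * L ≤ 2 / 3 * α * ((3 / 2 + e / 4) * k) :=
      mul_le_mul_of_nonneg_left hk (by linarith)
    have a2 : e * α * k ≤ 8 / 5 * (e * L) := by
      have a3 : α * k ≤ 8 / 5 * L := by
        calc α * k ≤ 8 / 5 * k := mul_le_mul_of_nonneg_right hα1 hk0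
          _ ≤ 8 / 5 * L := mul_le_mul_of_nonneg_left hkL' (by norm_num)
      have := mul_le_mul_of_nonneg_left a3 he.le
      linarith
    nlinarith
  have h2 : 2 / 3 * (w : ℝ) ≤ (20 * α - 31) * w :=
    mul_le_mul_of_nonneg_right (by linarith) hw0
  have h3 : 2 / 3 * α * (ν - L) ≤ (ν - L) + 2 / 15 := by
    have b0 : 0 ≤ ν - L := by linarith
    have b1 : 2 / 3 * α * (ν - L) ≤ 16 / 15 * (ν - L) := mul_le_mul_of_nonneg_right (by linarith) b0
    linarith
  have h4 : e / 4 * ν ≤ e / 4 * (L + 2) := mul_le_mul_of_nonneg_left hν1 (by positivity)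
  have key : (2 / 3 * α + e / 4) * ν ≤ α * (k + 20 * w) + ν - (L + 2 + 31 * w) := by
    nlinarith
  have h7 := mul_le_mul_of_nonneg_right key hu.le
  have h8 : (2 / 3 * α + e / 4) * Real.log x ≤ Real.log y := by
    rw [hvα, hxν] at hlog
    rw [hxν]
    nlinarith
  rw [hexp, Real.rpow_def_of_pos hx0, ← Real.le_log_iff_exp_le hy0, mul_comm]
  exact h8

/-- Transfer for sets depending only on the odd times. -/
theorem transfer_od (L k : ℕ) (hk : k ≤ L) (k0 : ℤ) (F : Finset ℕ → Prop) [DecidablePred F] :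
    ((Ico (k0 * 2 ^ L) ((k0 + 1) * 2 ^ L)).filter (fun n => ee (od k n) k = L ∧ F (od k n))).card ≤
      2 ^ (L - k) * ((range k).powerset.filter F).card := by
  classical
  have h1 := transfer L k k0 (fun S _ => F S)
  refine h1.trans ?_
  have h2 : ∀ S ∈ (range k).powerset.filter (fun S => k + S.card = L),
      (S.powerset.filter (fun _ => F S)).card ≤ if F S then 2 ^ (L - k) else 0 := by
    intro S hS
    rw [mem_filter] at hS
    by_cases hF : F S
    · rw [if_pos hF]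
      refine (card_filter_le _ _).trans ?_
      rw [card_powerset]
      exact Nat.pow_le_pow_right (by norm_num) (by omega)
    · rw [if_neg hF, filter_false_of_mem (fun _ _ => hF), card_empty]
  refine (sum_le_sum h2).trans ?_
  rw [← sum_filter, sum_const, smul_eq_mul, mul_comm]
  refine Nat.mul_le_mul_left _ (card_le_card ?_)
  intro S hS
  rw [mem_filter, mem_filter] at hS
  rw [mem_filter]
  exact ⟨hS.1.1, hS.2⟩

open Classical in
/-- the exceptional set for (C1) -/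
theorem exc1 (m L : ℕ) (hm : 1 ≤ m) (k0 : ℤ) :
    (((Ico (k0 * 2 ^ L) ((k0 + 1) * 2 ^ L)).filter
      (fun n => ∃ k, ee (od k n) k = L ∧ ¬ C1 (od k n) m k)).card : ℝ) ≤ (L + 1) ^ 2 * q1 ^ m * 2 ^ L := by
  have hsub : (Ico (k0 * 2 ^ L) ((k0 + 1) * 2 ^ L)).filter
      (fun n => ∃ k, ee (od k n) k = L ∧ ¬ C1 (od k n) m k) ⊆
      (range (L + 1)).biUnion (fun k => (Ico (k0 * 2 ^ L) ((k0 + 1) * 2 ^ L)).filter
      (fun n => ee (od k n) k = L ∧ ¬ C1 (od k n) m k)) := by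
    intro n hn
    rw [mem_filter] at hn
    obtain ⟨hn1, k, hk1, hk2⟩ := hn
    rw [mem_biUnion]
    refine ⟨k, ?_, ?_⟩
    · rw [mem_range]
      unfold ee at hk1
      omega
    · rw [mem_filter]
      exact ⟨hn1, hk1, hk2⟩
  have h1 : (((Ico (k0 * 2 ^ L) ((k0 + 1) * 2 ^ L)).filter
      (fun n => ∃ k, ee (od k n) k = L ∧ ¬ C1 (od k n) m k)).card : ℝ) ≤
      ∑ k ∈ range (L + 1), (((Ico (k0 * 2 ^ L) ((k0 + 1) * 2 ^ L)).filter
      (fun n => ee (od k n) k = L ∧ ¬ C1 (od k n) m k)).card : ℝ) := by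
    have := (card_le_card hsub).trans card_biUnion_le
    exact_mod_cast this
  refine h1.trans ?_
  have h3 : ∀ k ∈ range (L + 1), (((Ico (k0 * 2 ^ L) ((k0 + 1) * 2 ^ L)).filter
      (fun n => ee (od k n) k = L ∧ ¬ C1 (od k n) m k)).card : ℝ) ≤ (L + 1) * (q1 ^ m * 2 ^ L) := by
    intro k hk
    rw [mem_range] at hk
    have t1 := transfer_od L k (by omega) k0 (fun S => ¬ C1 S m k)
    have t2 := card_notC1 k m hm
    have hkL : (k : ℝ) ≤ L + 1 := by exact_mod_cast hk.le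
    have hq0 : 0 < q1 ^ m := pow_pos q1_lt.1 m
    calc (((Ico (k0 * 2 ^ L) ((k0 + 1) * 2 ^ L)).filter
      (fun n => ee (od k n) k = L ∧ ¬ C1 (od k n) m k)).card : ℝ)
        ≤ 2 ^ (L - k) * (((range k).powerset.filter (fun S => ¬ C1 S m k)).card : ℝ) := by exact_mod_cast t1
      _ ≤ 2 ^ (L - k) * (k * (q1 ^ m * 2 ^ k)) := mul_le_mul_of_nonneg_left t2 (by positivity)
      _ = k * (q1 ^ m * (2 ^ (L - k) * 2 ^ k)) := by ring
      _ = k * (q1 ^ m * 2 ^ L) := by
          rw [← pow_add, Nat.sub_add_cancel (by omega)]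
      _ ≤ (L + 1) * (q1 ^ m * 2 ^ L) := mul_le_mul_of_nonneg_right hkL (by positivity)
  refine (sum_le_card_nsmul _ _ _ h3).trans ?_
  rw [card_range, nsmul_eq_mul]
  push_cast
  apply le_of_eq
  ring

open Classical in
/-- the exceptional set for the number of odd times -/
theorem exc2 (d : ℝ) (hd : 0 < d) (hd2 : d < 1 / 2) : ∃ θ : ℝ, 0 < θ ∧ θ < 1 ∧ ∀ (L : ℕ) (k0 : ℤ),
    (((Ico (k0 * 2 ^ L) ((k0 + 1) * 2 ^ L)).filter
      (fun n => ∃ k, ee (od k n) k = L ∧ d * k < |((od k n).card : ℝ) - k / 2|)).card : ℝ) ≤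
        (L + 1) * (2 * (θ ^ L * 2 ^ L)) := by
  obtain ⟨θ, hθ0, hθ1, hθ⟩ := Pool.Agent.MP81cdd9.HZ.dev_general d hd hd2
  refine ⟨Real.sqrt θ, Real.sqrt_pos.2 hθ0, ?_, fun L k0 => ?_⟩
  · rw [Real.sqrt_lt' (by norm_num)]
    simpa using hθ1
  have hsub : (Ico (k0 * 2 ^ L) ((k0 + 1) * 2 ^ L)).filter
      (fun n => ∃ k, ee (od k n) k = L ∧ d * k < |((od k n).card : ℝ) - k / 2|) ⊆
      ((range (L + 1)).filter (fun k => L ≤ 2 * k)).biUnion (fun k => (Ico (k0 * 2 ^ L) ((k0 + 1) * 2 ^ L)).filter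
      (fun n => ee (od k n) k = L ∧ d * k < |((od k n).card : ℝ) - k / 2|)) := by
    intro n hn
    rw [mem_filter] at hn
    obtain ⟨hn1, k, hk1, hk2⟩ := hn
    rw [mem_biUnion]
    refine ⟨k, ?_, ?_⟩
    · rw [mem_filter, mem_range]
      have h1 := cnt_le (od k n) (Nat.zero_le k)
      rw [cnt_zero] at h1
      unfold ee at hk1
      omega
    · rw [mem_filter]
      exact ⟨hn1, hk1, hk2⟩
  have h1 : (((Ico (k0 * 2 ^ L) ((k0 + 1) * 2 ^ L)).filter
      (fun n => ∃ k, ee (od k n) k = L ∧ d * k < |((od k n).card : ℝ) - k / 2|)).card : ℝ) ≤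
      ∑ k ∈ (range (L + 1)).filter (fun k => L ≤ 2 * k), (((Ico (k0 * 2 ^ L) ((k0 + 1) * 2 ^ L)).filter
      (fun n => ee (od k n) k = L ∧ d * k < |((od k n).card : ℝ) - k / 2|)).card : ℝ) := by
    have := (card_le_card hsub).trans card_biUnion_le
    exact_mod_cast this
  refine h1.trans ?_
  have h3 : ∀ k ∈ (range (L + 1)).filter (fun k => L ≤ 2 * k), (((Ico (k0 * 2 ^ L) ((k0 + 1) * 2 ^ L)).filter
      (fun n => ee (od k n) k = L ∧ d * k < |((od k n).card : ℝ) - k / 2|)).card : ℝ) ≤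
      2 * (Real.sqrt θ ^ L * 2 ^ L) := by
    intro k hk
    rw [mem_filter, mem_range] at hk
    have t1 := transfer_od L k (by omega) k0 (fun S => d * k < |(S.card : ℝ) - k / 2|)
    have t2 := hθ k
    have h4 : θ ^ k ≤ Real.sqrt θ ^ L := by
      have e1 : θ = Real.sqrt θ ^ 2 := (Real.sq_sqrt hθ0.le).symm
      conv_lhs => rw [e1]
      rw [← pow_mul]
      apply pow_le_pow_of_le_one (Real.sqrt_nonneg _) _ hk.2
      rw [Real.sqrt_le_one]
      exact hθ1.le
    calc (((Ico (k0 * 2 ^ L) ((k0 + 1) * 2 ^ L)).filter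
      (fun n => ee (od k n) k = L ∧ d * k < |((od k n).card : ℝ) - k / 2|)).card : ℝ)
        ≤ 2 ^ (L - k) * (((range k).powerset.filter (fun S => d * k < |(S.card : ℝ) - k / 2|)).card : ℝ) := by
          exact_mod_cast t1
      _ ≤ 2 ^ (L - k) * (2 * (θ ^ k * 2 ^ k)) := mul_le_mul_of_nonneg_left t2 (by positivity)
      _ = 2 * (θ ^ k * (2 ^ (L - k) * 2 ^ k)) := by ring
      _ = 2 * (θ ^ k * 2 ^ L) := by
          rw [← pow_add, Nat.sub_add_cancel (by omega)]
      _ ≤ 2 * (Real.sqrt θ ^ L * 2 ^ L) := by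
          apply mul_le_mul_of_nonneg_left _ (by norm_num)
          exact mul_le_mul_of_nonneg_right h4 (by positivity)
  refine (sum_le_card_nsmul _ _ _ h3).trans ?_
  rw [nsmul_eq_mul]
  apply mul_le_mul_of_nonneg_right _ (by positivity)
  have : ((range (L + 1)).filter (fun k => L ≤ 2 * k)).card ≤ L + 1 := by
    refine (card_filter_le _ _).trans ?_
    rw [card_range]
  exact_mod_cast this

end Pool.Agent.MP9e8697.CW
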