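import Pool.Agent.Lib.MP_9e8697_nt.Mg.G006
import Pool.Agent.Lib.MP_9e8697_nt.Mg.G005
import Pool.Agent.Lib.MP_9e8697_nt.CW.W3

/-! The block theorem. -/

set_option autoImplicit false

namespace Pool.Agent.MP9e8697.CW

open Finset

theorem floor_pow (a : ℝ) (ha0 : 0 < a) (ha1 : a < 1) (N : ℕ) (hN : 1 ≤ N) :
    ∃ t : ℝ, 0 < t ∧ t < 1 ∧ ∀ L : ℕ, a ^ (L / N) ≤ 1 / a * t ^ L := by
  have hN' : (0 : ℝ) < N := by exact_mod_cast hN
  refine ⟨a ^ (1 / (N : ℝ)), Real.rpow_pos_of_pos ha0 _, Real.rpow_lt_one ha0.le ha1 (by positivity), ?_⟩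
  intro L
  have h1 : (a ^ (1 / (N : ℝ))) ^ N = a := by
    rw [← Real.rpow_natCast, ← Real.rpow_mul ha0.le, one_div, inv_mul_cancel₀ hN'.ne', Real.rpow_one]
  have ht0 : 0 < a ^ (1 / (N : ℝ)) := Real.rpow_pos_of_pos ha0 _
  have ht1 : a ^ (1 / (N : ℝ)) < 1 := Real.rpow_lt_one ha0.le ha1 (by positivity)
  generalize a ^ (1 / (N : ℝ)) = t at h1 ht0 ht1 ⊢
  have h2 : a * a ^ (L / N) ≤ t ^ L := by
    rw [← h1, ← pow_succ', ← pow_mul]
    apply pow_le_pow_of_le_one ht0.le ht1.le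
    exact (Nat.lt_mul_div_succ L hN).le
  rw [one_div, inv_mul_eq_div, le_div_iff₀ ha0, mul_comm]
  exact h2

theorem poly_absorb (t : ℝ) (ht0 : 0 < t) (ht1 : t < 1) :
    ∃ s E : ℝ, t ≤ s ∧ s < 1 ∧ 0 < E ∧ ∀ L : ℕ, ((L : ℝ) + 1) ^ 2 * t ^ L ≤ E * s ^ L := by
  set s := Real.sqrt t with hs
  have hs0 : 0 < s := Real.sqrt_pos.2 ht0
  have hs1 : s < 1 := by
    rw [hs, Real.sqrt_lt' (by norm_num)]
    simpa using ht1
  have hss : t = s * s := (Real.mul_self_sqrt ht0.le).symm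
  have h1 := tendsto_pow_const_mul_const_pow_of_abs_lt_one 2 (show |s| < 1 by rw [abs_of_pos hs0]; exact hs1)
  obtain ⟨M, hM⟩ := h1.bddAbove_range
  refine ⟨s, max M 1 / s, ?_, hs1, by positivity, ?_⟩
  · rw [hss]
    nlinarith
  intro L
  have h2 : (((L + 1 : ℕ) : ℝ)) ^ 2 * s ^ (L + 1) ≤ M := hM ⟨L + 1, rfl⟩
  have h3 : (((L + 1 : ℕ) : ℝ)) ^ 2 * s ^ (L + 1) ≤ max M 1 := h2.trans (le_max_left _ _)
  push_cast at h3
  have h4 : ((L : ℝ) + 1) ^ 2 * s ^ L ≤ max M 1 / s := by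
    rw [le_div_iff₀ hs0]
    have h5 : s ^ (L + 1) = s ^ L * s := pow_succ _ _
    rw [h5] at h3
    linarith
  calc ((L : ℝ) + 1) ^ 2 * t ^ L = (((L : ℝ) + 1) ^ 2 * s ^ L) * s ^ L := by
        rw [hss, mul_pow]; ring
    _ ≤ max M 1 / s * s ^ L := mul_le_mul_of_nonneg_right h4 (by positivity)

open Classical in
/-- The block theorem. -/
theorem block_bad : ∃ c s E : ℝ, 0 < c ∧ 0 < s ∧ s < 1 ∧ 0 < E ∧ ∃ L0 : ℕ, ∀ L ≥ L0, ∀ k0 : ℤ, 1 ≤ k0 → k0 ≤ 3 →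
    (((Ico (k0 * 2 ^ L) ((k0 + 1) * 2 ^ L)).filter
      (fun n => (∃ k, ee (od k n) k = L) ∧
        ∀ j : ℕ, ((T^[j] n : ℤ) : ℝ) < (n : ℝ) ^ (2 * Real.log 3 / (3 * Real.log 2) + c))).card : ℝ) ≤
      E * s ^ L * 2 ^ L := by
  obtain ⟨C, D, hC1, hC100, hcore⟩ := core
  obtain ⟨p, hp⟩ : ∃ p : ℕ, p = mw 1 := ⟨_, rfl⟩
  have hmw : ∀ b : ℕ, mw b = p * b := by
    intro b
    rw [hp]
    unfold mw
    ring
  have hp1 : 1 ≤ p := by
    rw [hp]
    unfold mw rh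
    have : 0 < 490 * (20 * ((10 * (N0 + 2)) ^ 2 * 1)) := by positivity
    exact this
  have hJp : JJ 1 = 40 * p := by rw [JJ_mw, hp]
  have hCp : 4000 * p ≤ C := by omega
  have hC0 : (0 : ℝ) < C := by exact_mod_cast hC1
  have hp0 : (0 : ℝ) < p := by exact_mod_cast hp1
  have hCpr : 4000 * (p : ℝ) ≤ C := by exact_mod_cast hCp
  obtain ⟨e, he⟩ : ∃ e : ℝ, e = p / (2 * C) := ⟨_, rfl⟩
  have he0 : 0 < e := by rw [he]; positivity
  have he1 : e ≤ 1 := by rw [he, div_le_one (by positivity)]; linarith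
  obtain ⟨θ, hθ0, hθ1, hθ⟩ := exc2 (e / 4) (by positivity) (by linarith)
  obtain ⟨t1, ht10, ht11, ht1⟩ := floor_pow q1 q1_lt.1 q1_lt.2 1000 (by norm_num)
  obtain ⟨t2, ht20, ht21, ht2⟩ := floor_pow (1 / 2) (by norm_num) (by norm_num) (C * 7) (by omega)
  -- the common rate
  obtain ⟨t, ht0, htt, hta, htb, htc⟩ : ∃ t : ℝ, 0 < t ∧ t < 1 ∧ t1 ≤ t ∧ t2 ≤ t ∧ θ ≤ t :=
    ⟨max t1 (max t2 θ), lt_max_of_lt_left ht10, max_lt ht11 (max_lt ht21 hθ1), le_max_left _ _,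
      (le_max_left _ _).trans (le_max_right _ _), (le_max_right _ _).trans (le_max_right _ _)⟩
  obtain ⟨s, E, hs1, hs2, hE, hsE⟩ := poly_absorb t ht0 htt
  have hq0 := q1_lt.1
  refine ⟨e / 4, s, (1 / q1 + 2 + 2 * D) * E, by positivity, lt_of_lt_of_le ht0 hs1, hs2, by positivity, ?_⟩
  obtain ⟨L1, hL1⟩ := exists_nat_gt (100 / e)
  refine ⟨max L1 (max (2 * C) 1000), ?_⟩
  intro L hL k0 hk1 hk3
  have hLL1 : L1 ≤ L := le_trans (le_max_left _ _) hL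
  have hLC : 2 * C ≤ L := le_trans (le_trans (le_max_left _ _) (le_max_right _ _)) hL
  have hL1000 : 1000 ≤ L := le_trans (le_trans (le_max_right _ _) (le_max_right _ _)) hL
  obtain ⟨b, hb⟩ : ∃ b : ℕ, b = L / C := ⟨_, rfl⟩
  have hb1 : C * b ≤ L := by rw [hb]; exact Nat.mul_div_le L C
  have hb2 : L < C * (b + 1) := by
    rw [hb]
    exact Nat.lt_mul_div_succ L (by omega)
  have hb0 : 1 ≤ b := by
    rw [hb]
    exact (Nat.le_div_iff_mul_le (by omega)).2 (by omega)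
  obtain ⟨w, hw⟩ : ∃ w : ℕ, w = mw b := ⟨_, rfl⟩
  have hwb : w = p * b := by rw [hw, hmw]
  have hJw : JJ b = 40 * w := by rw [JJ_mw, hw]
  have hwL : 4000 * w ≤ L := by
    have h1 : 4000 * p * b ≤ C * b := Nat.mul_le_mul_right _ hCp
    have h2 : 4000 * w = 4000 * p * b := by rw [hwb]; ring
    omega
  -- the three exceptional sets
  set A1 := (Ico (k0 * 2 ^ L) ((k0 + 1) * 2 ^ L)).filter
      (fun n => ∃ k, ee (od k n) k = L ∧ ¬ C1 (od k n) (L / 1000) k) with hA1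
  set A2 := (Ico (k0 * 2 ^ L) ((k0 + 1) * 2 ^ L)).filter
      (fun n => ∃ k, ee (od k n) k = L ∧ e / 4 * k < |((od k n).card : ℝ) - k / 2|) with hA2
  set A3 := (Ico (k0 * 2 ^ L) ((k0 + 1) * 2 ^ L)).filter
      (fun n => ∃ k, ee (od k n) k = L ∧ (T^[k] n) % 2 ^ JJ b ∈ manyR w) with hA3
  have hsub : (Ico (k0 * 2 ^ L) ((k0 + 1) * 2 ^ L)).filter
      (fun n => (∃ k, ee (od k n) k = L) ∧
        ∀ j : ℕ, ((T^[j] n : ℤ) : ℝ) < (n : ℝ) ^ (2 * Real.log 3 / (3 * Real.log 2) + e / 4)) ⊆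
      (A1 ∪ A2) ∪ A3 := by
    intro n hn
    rw [mem_filter] at hn
    obtain ⟨hnI, ⟨k, hk⟩, hj⟩ := hn
    rw [mem_union, mem_union, hA1, hA2, hA3, mem_filter, mem_filter, mem_filter]
    by_contra hcon
    push Not at hcon
    obtain ⟨⟨c1, c2⟩, c3⟩ := hcon
    have d1 := c1 hnI k hk
    have d2 := c2 hnI k hk
    have d3 := c3 hnI k hk
    rw [mem_Ico] at hnI
    have hp2 : (0 : ℤ) < 2 ^ L := by positivity
    have hn1 : (2 : ℤ) ^ L ≤ n := by nlinarith [hnI.1]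
    have hn2 : n < 2 ^ (L + 2) := by
      have e1 : (2 : ℤ) ^ (L + 2) = 4 * 2 ^ L := by rw [pow_add]; ring
      rw [e1]
      nlinarith [hnI.2]
    have hn0 : 0 < n := lt_of_lt_of_le hp2 hn1
    -- k is comparable to L
    have hkL : k ≤ L := by
      unfold ee at hk
      omega
    have hLk : L ≤ 2 * k := by
      have h1 := cnt_le (od k n) (Nat.zero_le k)
      rw [cnt_zero] at h1
      unfold ee at hk
      omega
    have hkR : (L : ℝ) ≤ (3 / 2 + e / 4) * k := by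
      have h1 : L = k + (od k n).card := by
        rw [← hk]
        unfold ee
        rw [cnt_od]
      have h2 : (L : ℝ) = k + ((od k n).card : ℝ) := by
        conv_lhs => rw [h1]
        push_cast
        rfl
      have h3 := (abs_le.1 d2).2
      rw [h2]
      linarith
    -- the window
    have hp : (0 : ℤ) < 2 ^ JJ b := by positivity
    have hwin : (od (20 * w) (T^[k] n)).card ≤ 11 * w := by
      by_contra hc
      rw [not_le] at hc
      refine d3 ?_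
      unfold manyR
      rw [Finset.mem_filter, Finset.mem_Ico, ← hJw]
      refine ⟨⟨Int.emod_nonneg _ hp.ne', Int.emod_lt_of_pos _ hp⟩, ?_⟩
      rw [od_mod (JJ b) (20 * w) (by omega)]
      exact hc.le
    -- n is large
    have hnbig : 2 * ((k : ℤ) * 2 ^ (62 * (L / 1000) + 20)) ≤ n := by
      refine le_trans ?_ hn1
      have h1 : L / 2 < 2 ^ (L / 2) := Nat.lt_two_pow_self
      have h2 : 2 * (k * 2 ^ (62 * (L / 1000) + 20)) ≤ 2 ^ L := by
        have h3 : 2 * k ≤ 2 ^ (L / 2 + 3) := by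
          rw [pow_add]
          omega
        calc 2 * (k * 2 ^ (62 * (L / 1000) + 20)) = (2 * k) * 2 ^ (62 * (L / 1000) + 20) := by ring
          _ ≤ 2 ^ (L / 2 + 3) * 2 ^ (62 * (L / 1000) + 20) := Nat.mul_le_mul_right _ h3
          _ = 2 ^ (L / 2 + 3 + (62 * (L / 1000) + 20)) := by rw [← pow_add]
          _ ≤ 2 ^ L := Nat.pow_le_pow_right (by norm_num) (by omega)
      exact_mod_cast h2
    have hgr := growth (L / 1000) k w L n (by omega) hk d1 hnbig hn1 (by omega) hwin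
    have hgrR : (3 : ℝ) ^ (k + 20 * w) * (n : ℝ) ≤
        2 ^ (L + 2 + 31 * w) * ((T^[20 * w + k] n : ℤ) : ℝ) := by
      have := (Int.cast_le (R := ℝ)).2 hgr
      push_cast at this
      exact this
    have hfin := exponent e n ((T^[20 * w + k] n : ℤ) : ℝ) he0 he1 L k w ?_ ?_ hkL hkR ?_ ?_ hgrR
    · exact absurd hfin (not_le.2 (hj (20 * w + k)))
    · have h1 : (L1 : ℝ) ≤ L := by exact_mod_cast hLL1
      have h2 : 100 / e < L := lt_of_lt_of_le hL1 h1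
      rw [div_lt_iff₀ he0] at h2
      linarith
    · have h1 : (L : ℝ) ≤ C * (2 * b) := by
        have : L ≤ C * (2 * b) := by nlinarith
        exact_mod_cast this
      have h2 : (w : ℝ) = p * b := by rw [hwb]; push_cast; ring
      rw [h2, he]
      calc (p : ℝ) / (2 * C) * L ≤ p / (2 * C) * (C * (2 * b)) := mul_le_mul_of_nonneg_left h1 (by positivity)
        _ = p * b := by field_simp
    · have := (Int.cast_le (R := ℝ)).2 hn1
      push_cast at this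
      exact this
    · have := (Int.cast_le (R := ℝ)).2 hn2.le
      push_cast at this
      exact this
  have hcard : (((Ico (k0 * 2 ^ L) ((k0 + 1) * 2 ^ L)).filter
      (fun n => (∃ k, ee (od k n) k = L) ∧
        ∀ j : ℕ, ((T^[j] n : ℤ) : ℝ) < (n : ℝ) ^ (2 * Real.log 3 / (3 * Real.log 2) + e / 4))).card : ℝ) ≤
      A1.card + A2.card + A3.card := by
    have h1 := card_le_card hsub
    have h2 := card_union_le (A1 ∪ A2) A3
    have h3 := card_union_le A1 A2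
    have h4 : ((Ico (k0 * 2 ^ L) ((k0 + 1) * 2 ^ L)).filter
      (fun n => (∃ k, ee (od k n) k = L) ∧
        ∀ j : ℕ, ((T^[j] n : ℤ) : ℝ) < (n : ℝ) ^ (2 * Real.log 3 / (3 * Real.log 2) + e / 4))).card ≤
        A1.card + A2.card + A3.card := by omega
    exact_mod_cast h4
  refine hcard.trans ?_
  have h2L : (0 : ℝ) < 2 ^ L := by positivity
  have hLp : (0 : ℝ) ≤ L := Nat.cast_nonneg L
  have hL12 : (1 : ℝ) ≤ ((L : ℝ) + 1) := by linarith
  have htL : ∀ u : ℝ, 0 < u → u ≤ t → u ^ L ≤ t ^ L := fun u hu hut => pow_le_pow_left₀ hu.le hut L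
  have b1 : (A1.card : ℝ) ≤ (1 / q1) * (((L : ℝ) + 1) ^ 2 * t ^ L) * 2 ^ L := by
    have h1 := exc1 (L / 1000) L (by omega) k0
    refine h1.trans ?_
    apply mul_le_mul_of_nonneg_right _ h2L.le
    calc ((L : ℝ) + 1) ^ 2 * q1 ^ (L / 1000) ≤ ((L : ℝ) + 1) ^ 2 * (1 / q1 * t1 ^ L) :=
          mul_le_mul_of_nonneg_left (ht1 L) (by positivity)
      _ ≤ ((L : ℝ) + 1) ^ 2 * (1 / q1 * t ^ L) := by
          apply mul_le_mul_of_nonneg_left _ (by positivity)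
          exact mul_le_mul_of_nonneg_left (htL t1 ht10 hta) (by positivity)
      _ = (1 / q1) * (((L : ℝ) + 1) ^ 2 * t ^ L) := by ring
  have b2 : (A2.card : ℝ) ≤ 2 * (((L : ℝ) + 1) ^ 2 * t ^ L) * 2 ^ L := by
    have h1 := hθ L k0
    refine h1.trans ?_
    have h2 : ((L : ℝ) + 1) ≤ ((L : ℝ) + 1) ^ 2 := by nlinarith
    have h3 : ((L : ℝ) + 1) * θ ^ L ≤ ((L : ℝ) + 1) ^ 2 * t ^ L :=
      mul_le_mul h2 (htL θ hθ0 htc) (by positivity) (by positivity)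
    calc ((L : ℝ) + 1) * (2 * (θ ^ L * 2 ^ L)) = 2 * (((L : ℝ) + 1) * θ ^ L) * 2 ^ L := by ring
      _ ≤ 2 * (((L : ℝ) + 1) ^ 2 * t ^ L) * 2 ^ L := by
          apply mul_le_mul_of_nonneg_right _ h2L.le
          exact mul_le_mul_of_nonneg_left h3 (by norm_num)
  have b3 : (A3.card : ℝ) ≤ 2 * D * (((L : ℝ) + 1) ^ 2 * t ^ L) * 2 ^ L := by
    have h1 := hcore b L hb0 hb1 k0 (manyR w) (by rw [hw]; exact card_manyR_le b)
    have h2 : (1 / 2 : ℝ) ^ (b / 7) ≤ 2 * t ^ L := by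
      have h3 := ht2 L
      have h4 : L / (C * 7) = b / 7 := by rw [hb, Nat.div_div_eq_div_mul]
      rw [h4] at h3
      calc (1 / 2 : ℝ) ^ (b / 7) ≤ 1 / (1 / 2) * t2 ^ L := h3
        _ = 2 * t2 ^ L := by norm_num
        _ ≤ 2 * t ^ L := mul_le_mul_of_nonneg_left (htL t2 ht20 htb) (by norm_num)
    have h5 : (A3.card : ℝ) = (A3.card * 2 ^ (b / 7)) * (1 / 2) ^ (b / 7) := by
      rw [mul_assoc, ← mul_pow]
      norm_num
    rw [h5]
    calc (A3.card * 2 ^ (b / 7)) * (1 / 2 : ℝ) ^ (b / 7) ≤ (D * ((L : ℝ) + 1) ^ 2 * 2 ^ L) * (2 * t ^ L) :=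
          mul_le_mul h1 h2 (by positivity) (by positivity)
      _ = 2 * D * (((L : ℝ) + 1) ^ 2 * t ^ L) * 2 ^ L := by ring
  have hfin := hsE L
  have hcoef : (0 : ℝ) ≤ 1 / q1 + 2 + 2 * D := by positivity
  calc (A1.card : ℝ) + A2.card + A3.card
      ≤ (1 / q1) * (((L : ℝ) + 1) ^ 2 * t ^ L) * 2 ^ L + 2 * (((L : ℝ) + 1) ^ 2 * t ^ L) * 2 ^ L +
        2 * D * (((L : ℝ) + 1) ^ 2 * t ^ L) * 2 ^ L := by linarith
    _ = (1 / q1 + 2 + 2 * D) * (((L : ℝ) + 1) ^ 2 * t ^ L) * 2 ^ L := by ring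
    _ ≤ (1 / q1 + 2 + 2 * D) * (E * s ^ L) * 2 ^ L := by
        apply mul_le_mul_of_nonneg_right _ h2L.le
        exact mul_le_mul_of_nonneg_left hfin hcoef
    _ = (1 / q1 + 2 + 2 * D) * E * s ^ L * 2 ^ L := by ring

end Pool.Agent.MP9e8697.CW
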