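import Pool.Agent.Lib.MP_9e8697_nt.Defs
import Pool.Agent.Lib.MP_9e8697_nt.CW.K1

/-! Growth of almost all orbits. -/

set_option autoImplicit false

namespace Pool.Agent.MP9e8697.CW

open Finset

theorem T_cast (x : ℕ) : T (x : ℤ) = ((Pool.Agent.MP_9e8697_nt.T x : ℕ) : ℤ) := by
  unfold T Pool.Agent.MP_9e8697_nt.T
  split_ifs <;> omega

theorem iterate_cast (j : ℕ) (x : ℕ) : T^[j] (x : ℤ) = ((Pool.Agent.MP_9e8697_nt.T^[j] x : ℕ) : ℤ) := by
  induction j with
  | zero => rfl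
  | succ j ih => rw [Function.iterate_succ_apply', Function.iterate_succ_apply', ih, T_cast]

/-- the exponent reached at the horizon -/
noncomputable def theta : ℝ := 2 * Real.log 3 / (3 * Real.log 2)

open Classical in
/-- the bad integers of a dyadic block -/
noncomputable def badZ (c : ℝ) (a b : ℤ) : Finset ℤ :=
  (Ico a b).filter (fun n => ∀ j : ℕ, ((T^[j] n : ℤ) : ℝ) < (n : ℝ) ^ (theta + c))

theorem dyadic_bad : ∃ c r E : ℝ, 0 < c ∧ 1 / 2 < r ∧ r < 1 ∧ 0 < E ∧ ∀ L : ℕ,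
    ((badZ c (2 ^ L) (2 ^ (L + 1))).card : ℝ) ≤ E * (2 * r) ^ L := by
  classical
  obtain ⟨c, s, E, hc, hs0, hs1, hE, L0, hL0⟩ := block_bad
  refine ⟨c, max s (3 / 4), E + 2 * E / s + 1 / s ^ (L0 + 1), hc, ?_, ?_, by positivity, ?_⟩
  · exact lt_of_lt_of_le (by norm_num) (le_max_right _ _)
  · exact max_lt hs1 (by norm_num)
  intro L
  have hrs : (2 * s) ^ L ≤ (2 * max s (3 / 4)) ^ L :=
    pow_le_pow_left₀ (by positivity) (by have := le_max_left s (3 / 4); linarith) L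
  have hcoef : 0 ≤ E + 2 * E / s + 1 / s ^ (L0 + 1) := by positivity
  refine le_trans ?_ (mul_le_mul_of_nonneg_left hrs hcoef)
  rw [mul_pow]
  by_cases hL : L0 + 1 ≤ L
  · -- large L
    obtain ⟨L', rfl⟩ : ∃ L', L = L' + 1 := ⟨L - 1, by omega⟩
    have hsub : badZ c (2 ^ (L' + 1)) (2 ^ (L' + 1 + 1)) ⊆
        ((Ico (1 * 2 ^ (L' + 1)) ((1 + 1) * 2 ^ (L' + 1))).filter
          (fun n => (∃ k, ee (od k n) k = L' + 1) ∧
            ∀ j : ℕ, ((T^[j] n : ℤ) : ℝ) < (n : ℝ) ^ (2 * Real.log 3 / (3 * Real.log 2) + c))) ∪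
        (((Ico (2 * 2 ^ L') ((2 + 1) * 2 ^ L')).filter
          (fun n => (∃ k, ee (od k n) k = L') ∧
            ∀ j : ℕ, ((T^[j] n : ℤ) : ℝ) < (n : ℝ) ^ (2 * Real.log 3 / (3 * Real.log 2) + c))) ∪
        ((Ico (3 * 2 ^ L') ((3 + 1) * 2 ^ L')).filter
          (fun n => (∃ k, ee (od k n) k = L') ∧
            ∀ j : ℕ, ((T^[j] n : ℤ) : ℝ) < (n : ℝ) ^ (2 * Real.log 3 / (3 * Real.log 2) + c)))) := by
      intro n hn
      unfold badZ theta at hn
      rw [mem_filter, mem_Ico] at hn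
      obtain ⟨⟨hn1, hn2⟩, hn3⟩ := hn
      have e1 : (2 : ℤ) ^ (L' + 1) = 2 * 2 ^ L' := by rw [pow_succ]; ring
      have e2 : (2 : ℤ) ^ (L' + 1 + 1) = 4 * 2 ^ L' := by rw [pow_succ, pow_succ]; ring
      rw [mem_union, mem_union, mem_filter, mem_filter, mem_filter, mem_Ico, mem_Ico, mem_Ico]
      obtain ⟨k, hk | hk⟩ := aligned (L' + 1) n
      · left
        refine ⟨⟨by linarith, ?_⟩, ⟨k, hk⟩, hn3⟩
        rw [e1]
        rw [e2] at hn2
        linarith
      · right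
        have hk' : ee (od k n) k = L' := by omega
        rw [e1] at hn1
        rw [e2] at hn2
        rcases lt_or_ge n ((2 + 1) * 2 ^ L') with h | h
        · left
          exact ⟨⟨hn1, h⟩, ⟨k, hk'⟩, hn3⟩
        · right
          exact ⟨⟨by linarith, by linarith⟩, ⟨k, hk'⟩, hn3⟩
    have h1 := (card_le_card hsub).trans ((card_union_le _ _).trans
      (Nat.add_le_add_left (card_union_le _ _) _))
    have h2 := hL0 (L' + 1) (by omega) 1 le_rfl (by norm_num)
    have h3 := hL0 L' (by omega) 2 (by norm_num) (by norm_num)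
    have h4 := hL0 L' (by omega) 3 (by norm_num) le_rfl
    have h5 := (Nat.cast_le (α := ℝ)).2 h1
    push_cast at h5
    have h6 : ((badZ c (2 ^ (L' + 1)) (2 ^ (L' + 1 + 1))).card : ℝ) ≤
        E * s ^ (L' + 1) * 2 ^ (L' + 1) + (E * s ^ L' * 2 ^ L' + E * s ^ L' * 2 ^ L') := by
      refine h5.trans ?_
      apply add_le_add h2
      exact add_le_add h3 h4
    refine h6.trans ?_
    have h7 : E * s ^ L' * 2 ^ L' + E * s ^ L' * 2 ^ L' = E / s * (2 ^ (L' + 1) * s ^ (L' + 1)) := by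
      rw [pow_succ, pow_succ]
      field_simp
      ring
    rw [h7]
    have h8 : (0 : ℝ) ≤ 2 ^ (L' + 1) * s ^ (L' + 1) := by positivity
    have h9 : 0 ≤ E / s := by positivity
    have h10 : 0 ≤ 1 / s ^ (L0 + 1) := by positivity
    have h11 : 2 * E / s = 2 * (E / s) := by ring
    rw [h11]
    nlinarith
  · -- small L
    have h1 : (badZ c (2 ^ L) (2 ^ (L + 1))).card ≤ 2 ^ L := by
      unfold badZ
      refine (card_filter_le _ _).trans ?_
      rw [Int.card_Ico]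
      have h2 : (2 : ℤ) ^ (L + 1) - 2 ^ L = ((2 ^ L : ℕ) : ℤ) := by
        push_cast
        rw [pow_succ]
        ring
      rw [h2, Int.toNat_natCast]
    have h2 : ((badZ c (2 ^ L) (2 ^ (L + 1))).card : ℝ) ≤ 2 ^ L := by exact_mod_cast h1
    have h3 : 1 ≤ 1 / s ^ (L0 + 1) * s ^ L := by
      rw [one_div, inv_mul_eq_div, le_div_iff₀ (by positivity), one_mul]
      exact pow_le_pow_of_le_one hs0.le hs1.le (by omega)
    calc ((badZ c (2 ^ L) (2 ^ (L + 1))).card : ℝ) ≤ 2 ^ L * 1 := by rw [mul_one]; exact h2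
      _ ≤ 2 ^ L * (1 / s ^ (L0 + 1) * s ^ L) := mul_le_mul_of_nonneg_left h3 (by positivity)
      _ = 1 / s ^ (L0 + 1) * (2 ^ L * s ^ L) := by ring
      _ ≤ (E + 2 * E / s + 1 / s ^ (L0 + 1)) * (2 ^ L * s ^ L) := by
          apply mul_le_mul_of_nonneg_right _ (by positivity)
          have : 0 ≤ E + 2 * E / s := by positivity
          linarith

open Classical in
/-- Growth of almost all orbits beyond the horizon, with a power saving. -/
theorem growth_final : ∃ c κ K : ℝ, 0 < c ∧ 0 < κ ∧ 0 < K ∧ ∀ X : ℕ, 1 ≤ X →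
    (((Icc 1 X).filter (fun n : ℕ => ∀ j : ℕ,
      ((Pool.Agent.MP_9e8697_nt.T^[j] n : ℕ) : ℝ) < (n : ℝ) ^ (theta + c))).card : ℝ) ≤ K * (X : ℝ) ^ (1 - κ) := by
  obtain ⟨c, r, E, hc, hr0, hr1, hE, h⟩ := dyadic_bad
  have hr : 0 < r := by linarith
  have hl2 : 0 < Real.log 2 := Real.log_pos (by norm_num)
  have hlr : Real.log r < 0 := Real.log_neg hr hr1
  set κ : ℝ := -Real.log r / Real.log 2 with hκ
  have hκ0 : 0 < κ := by
    rw [hκ]
    apply div_pos (by linarith) hl2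
  have h2r : (2 : ℝ) * r = 2 ^ (1 - κ) := by
    rw [Real.rpow_def_of_pos (by norm_num)]
    have : Real.log 2 * (1 - κ) = Real.log (2 * r) := by
      rw [Real.log_mul (by norm_num) hr.ne', hκ]
      field_simp
      ring
    rw [this, Real.exp_log (by positivity)]
  have h1κ : 0 < 1 - κ := by
    by_contra hcon
    rw [not_lt] at hcon
    have h1 : (2 : ℝ) ^ (1 - κ) ≤ 1 := Real.rpow_le_one_of_one_le_of_nonpos (by norm_num) hcon
    rw [← h2r] at h1
    linarith
  have hd : 0 < 2 * r - 1 := by linarith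
  refine ⟨c, κ, E * (2 * r) / (2 * r - 1), hc, hκ0, by positivity, ?_⟩
  intro X hX
  set N := Nat.log 2 X with hN
  have hNX : 2 ^ N ≤ X := Nat.pow_log_le_self 2 (by omega)
  have hXN : X < 2 ^ (N + 1) := Nat.lt_pow_succ_log_self (by norm_num) X
  -- the injection into the integers
  have h1 : ((Icc 1 X).filter (fun n : ℕ => ∀ j : ℕ,
      ((Pool.Agent.MP_9e8697_nt.T^[j] n : ℕ) : ℝ) < (n : ℝ) ^ (theta + c))).card ≤
      ((range (N + 1)).biUnion (fun L => badZ c (2 ^ L) (2 ^ (L + 1)))).card := by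
    apply card_le_card_of_injOn (fun n : ℕ => (n : ℤ))
    · intro n hn
      rw [mem_coe, mem_filter, mem_Icc] at hn
      rw [mem_coe, mem_biUnion]
      obtain ⟨⟨hn1, hn2⟩, hn3⟩ := hn
      have hln : 2 ^ Nat.log 2 n ≤ n := Nat.pow_log_le_self 2 (by omega)
      have hln2 : n < 2 ^ (Nat.log 2 n + 1) := Nat.lt_pow_succ_log_self (by norm_num) n
      refine ⟨Nat.log 2 n, ?_, ?_⟩
      · rw [mem_range]
        have := Nat.log_mono_right (b := 2) hn2
        omega
      · unfold badZ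
        rw [mem_filter, mem_Ico]
        have a1 : (2 : ℤ) ^ Nat.log 2 n ≤ (n : ℤ) := by exact_mod_cast hln
        have a2 : (n : ℤ) < (2 : ℤ) ^ (Nat.log 2 n + 1) := by exact_mod_cast hln2
        refine ⟨⟨a1, a2⟩, ?_⟩
        intro j
        have := hn3 j
        rw [iterate_cast]
        simpa using this
    · intro n _ n' _ hnn
      exact Int.ofNat.inj hnn
  have h2 := h1.trans card_biUnion_le
  have h3 : (((Icc 1 X).filter (fun n : ℕ => ∀ j : ℕ,
      ((Pool.Agent.MP_9e8697_nt.T^[j] n : ℕ) : ℝ) < (n : ℝ) ^ (theta + c))).card : ℝ) ≤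
      ∑ L ∈ range (N + 1), E * (2 * r) ^ L := by
    have h4 := (Nat.cast_le (α := ℝ)).2 h2
    push_cast at h4
    exact h4.trans (sum_le_sum fun L _ => h L)
  refine h3.trans ?_
  rw [← mul_sum, geom_sum_eq (by linarith : (2 * r) ≠ 1)]
  have hNR : ((2 : ℝ) ^ N) ≤ X := by exact_mod_cast hNX
  have h5 : (2 * r) ^ N ≤ (X : ℝ) ^ (1 - κ) := by
    rw [h2r, ← Real.rpow_natCast, ← Real.rpow_mul (by norm_num), mul_comm (1 - κ), Real.rpow_mul (by norm_num),
      Real.rpow_natCast]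
    exact Real.rpow_le_rpow (by positivity) hNR h1κ.le
  calc E * (((2 * r) ^ (N + 1) - 1) / (2 * r - 1)) ≤ E * ((2 * r) ^ (N + 1) / (2 * r - 1)) := by
        apply mul_le_mul_of_nonneg_left _ hE.le
        apply div_le_div_of_nonneg_right _ hd.le
        linarith
    _ = E * (2 * r) / (2 * r - 1) * (2 * r) ^ N := by
        rw [pow_succ]
        ring
    _ ≤ E * (2 * r) / (2 * r - 1) * (X : ℝ) ^ (1 - κ) := mul_le_mul_of_nonneg_left h5 (by positivity)

end Pool.Agent.MP9e8697.CW
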