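import Pool.Agent.Lib.MP_9e8697_nt.Mg.G011
import Pool.Agent.Lib.MP_9e8697_nt.Mg.G010

/-! Few integers lie in short cycles. -/

set_option autoImplicit false

namespace Pool.Agent.MP9e8697.CW

open Finset Function
open Pool.Agent.MP_9e8697_nt (Reps measure T)

/-- In a set of integers which lie in cycles of length at most `N` there are at most `10^27 N^33` elements. -/
theorem short_cycles (N : ℕ) (P : Finset ℕ)
    (hP : ∀ n ∈ P, 0 < n ∧ 0 < minimalPeriod T n ∧ minimalPeriod T n ≤ N) :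
    (P.card : ℝ) ≤ 10 ^ 27 * (N : ℝ) ^ 33 := by
  classical
  set S := P.filter (fun n => ∀ m ∈ P, (∃ k, T^[k] n = m) → n ≤ m) with hS
  -- going back
  have hback : ∀ n ∈ P, ∀ m : ℕ, (∃ k, T^[k] n = m) → ∃ j, T^[j] m = n := by
    rintro n hn m ⟨k, rfl⟩
    have hp := (hP n hn).2.1
    refine ⟨k * minimalPeriod T n - k, ?_⟩
    rw [← Function.iterate_add_apply]
    have h1 : k * minimalPeriod T n - k + k = k * minimalPeriod T n := by
      have : k * 1 ≤ k * minimalPeriod T n := Nat.mul_le_mul_left _ hp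
      omega
    rw [h1, mul_comm]
    exact (isPeriodicPt_minimalPeriod T n).mul_const k
  have hReps : Reps N S := by
    refine ⟨?_, ?_, ?_, ?_⟩
    · intro x hx
      exact (hP x (mem_filter.1 hx).1).1
    · intro x hx
      exact (hP x (mem_filter.1 hx).1).2.1
    · intro x hx
      exact (hP x (mem_filter.1 hx).1).2.2
    · intro x hx y hy k hk
      rw [hS, mem_filter] at hx hy
      have h1 := hx.2 y hy.1 ⟨k, hk⟩
      have h2 := hy.2 x hx.1 (hback x hx.1 y ⟨k, hk⟩)
      omega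
  have hcover : P ⊆ S.biUnion (fun x => (range N).image (fun i => T^[i] x)) := by
    intro n hn
    set Q := P.filter (fun m => ∃ k, T^[k] n = m) with hQ
    have hnQ : n ∈ Q := by
      rw [hQ, mem_filter]
      exact ⟨hn, 0, rfl⟩
    obtain ⟨m, hm1, hm2⟩ := exists_min_image Q id ⟨n, hnQ⟩
    rw [hQ, mem_filter] at hm1
    obtain ⟨hmP, k, hk⟩ := hm1
    have hmS : m ∈ S := by
      rw [hS, mem_filter]
      refine ⟨hmP, ?_⟩
      rintro m' hm' ⟨k', hk'⟩
      refine hm2 m' ?_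
      rw [hQ, mem_filter]
      refine ⟨hm', k' + k, ?_⟩
      rw [Function.iterate_add_apply, hk, hk']
    obtain ⟨j, hj⟩ := hback n hn m ⟨k, hk⟩
    rw [mem_biUnion]
    refine ⟨m, hmS, ?_⟩
    rw [mem_image]
    refine ⟨j % minimalPeriod T m, ?_, ?_⟩
    · rw [mem_range]
      exact lt_of_lt_of_le (Nat.mod_lt _ (hP m hmP).2.1) (hP m hmP).2.2
    · rw [Function.iterate_mod_minimalPeriod_eq]
      exact hj
  have h1 : P.card ≤ S.card * N := by
    refine (card_le_card hcover).trans (card_biUnion_le.trans ?_)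
    have h2 : ∀ x ∈ S, ((range N).image (fun i => T^[i] x)).card ≤ N := by
      intro x _
      refine card_image_le.trans ?_
      rw [card_range]
    have := sum_le_card_nsmul _ _ _ h2
    rwa [smul_eq_mul] at this
  have h2 := hReps.card_le (c := 1 / 10 ^ 27) (by positivity) (κ := 31) measure
  have hN0 : (0 : ℝ) ≤ N := Nat.cast_nonneg N
  calc (P.card : ℝ) ≤ S.card * N := by exact_mod_cast h1
    _ ≤ ((N : ℝ) ^ (31 + 1) / (2 * (1 / 10 ^ 27))) * N := mul_le_mul_of_nonneg_right h2 hN0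
    _ = 10 ^ 27 / 2 * (N : ℝ) ^ 33 := by
        field_simp
        ring
    _ ≤ 10 ^ 27 * (N : ℝ) ^ 33 := by
        apply mul_le_mul_of_nonneg_right _ (by positivity)
        norm_num

open Classical in
/-- Almost all integers lie in orbits with a power of `n` many elements. -/
theorem long_orbits (X : ℕ) (hX : 1 ≤ X) :
    (((Icc 1 X).filter (fun n : ℕ => 0 < minimalPeriod T n ∧
      (minimalPeriod T n : ℝ) ≤ (n : ℝ) ^ (1 / 34 : ℝ))).card : ℝ) ≤ 10 ^ 27 * (X : ℝ) ^ (33 / 34 : ℝ) := by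
  have hX0 : (1 : ℝ) ≤ X := by exact_mod_cast hX
  set N : ℕ := ⌊(X : ℝ) ^ (1 / 34 : ℝ)⌋₊ with hN
  have hN1 : (N : ℝ) ≤ (X : ℝ) ^ (1 / 34 : ℝ) := Nat.floor_le (by positivity)
  have h1 := short_cycles N ((Icc 1 X).filter (fun n : ℕ => 0 < minimalPeriod T n ∧
      (minimalPeriod T n : ℝ) ≤ (n : ℝ) ^ (1 / 34 : ℝ))) (by
    intro n hn
    rw [mem_filter, mem_Icc] at hn
    refine ⟨by omega, hn.2.1, ?_⟩
    refine Nat.le_floor (hn.2.2.trans ?_)
    apply Real.rpow_le_rpow (Nat.cast_nonneg n) _ (by norm_num)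
    exact_mod_cast hn.1.2)
  refine h1.trans ?_
  apply mul_le_mul_of_nonneg_left _ (by positivity)
  calc (N : ℝ) ^ 33 ≤ ((X : ℝ) ^ (1 / 34 : ℝ)) ^ 33 := pow_le_pow_left₀ (Nat.cast_nonneg N) hN1 33
    _ = (X : ℝ) ^ (33 / 34 : ℝ) := by
        rw [← Real.rpow_natCast, ← Real.rpow_mul (by linarith)]
        norm_num

end Pool.Agent.MP9e8697.CW
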